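import Pool.Agent.E8helper23.SZ.Lsum
import Pool.Agent.E8helper63.SZ.Pos
import Pool.Agent.E8helper63.SZ.Zero

/-!
# Project GZ: few primes with `χ(p) ≠ -1` if `L(1, χ)` is small
-/

set_option autoImplicit false

namespace Pool.Agent.E8helper81.GZ

open Finset Pool.Agent.E8helper22.SZ

theorem cv_le {q : ℕ} {χ : DirichletCharacter ℂ q} (hχ : RealPrim q χ) (m : ℕ) : |cv χ m| ≤ 1 := by
  unfold cv
  rcases hχ.quad (m : ZMod q) with h | h | h <;> rw [h] <;> simp

lemma interval_le {q : ℕ} [NeZero q] {χ : DirichletCharacter ℂ q} (hχ1 : χ ≠ 1) (D M : ℕ) :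
    ∑ d ∈ Ioc D M, cv χ d ≤ 2 * q := by
  have h1 := Pool.Agent.Erdos456.norm_interval_le χ hχ1 (D + 1) (M - D)
  have h2 : ∑ d ∈ Ioc D M, cv χ d = (∑ i ∈ range (M - D), χ ((D + 1 + i : ℕ) : ZMod q)).re := by
    rw [Complex.re_sum, ← Finset.Ico_succ_succ_eq_Ioc]
    rw [sum_Ico_eq_sum_range]
    have h3 : M.succ - D.succ = M - D := by omega
    simp only [Nat.succ_eq_succ, Nat.succ_eq_add_one] at *
    rw [show M + 1 - (D + 1) = M - D by omega]
    rfl
  rw [h2]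
  exact (Complex.re_le_norm _).trans h1

lemma tau_eq_sum {q : ℕ} (χ : DirichletCharacter ℂ q) {N m : ℕ} (hm : m ∈ Icc 1 N) :
    tau χ m = ∑ d ∈ Icc 1 N, if d ∣ m then cv χ d else 0 := by
  rw [mem_Icc] at hm
  unfold tau
  rw [← sum_filter]
  refine sum_congr ?_ fun _ _ => rfl
  ext d
  rw [Nat.mem_divisors, mem_filter, mem_Icc]
  constructor
  · rintro ⟨h1, h2⟩
    exact ⟨⟨Nat.pos_of_dvd_of_pos h1 (by omega), (Nat.le_of_dvd (by omega) h1).trans hm.2⟩, h1⟩
  · rintro ⟨_, h1⟩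
    exact ⟨h1, by omega⟩

lemma card_mul (N d : ℕ) : ((Icc 1 N).filter (fun m => d ∣ m)).card = N / d := by
  rw [← Nat.card_multiples' N d]
  congr 1
  ext k
  rw [mem_filter, mem_filter, mem_Icc, mem_range, Nat.succ_eq_add_one]
  constructor
  · rintro ⟨⟨h1, h2⟩, h3⟩
    exact ⟨by omega, by omega, h3⟩
  · rintro ⟨h1, h2, h3⟩
    exact ⟨⟨by omega, by omega⟩, h3⟩

theorem tau_sum {q : ℕ} [NeZero q] {χ : DirichletCharacter ℂ q} (hq : 1 < q) (hχ : RealPrim q χ)
    {N D : ℕ} (hD : 0 < D) (hDN : D ≤ N) :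
    ∑ m ∈ Icc 1 N, tau χ m ≤ N * (‖χ.LFunction 1‖ + 2 * q / D) + D + 2 * q * (N / D) := by
  classical
  have hχ1 : χ ≠ 1 := Pool.Agent.E8helper63.SZ.ne_one hq hχ
  have hD0 : (0 : ℝ) < D := by exact_mod_cast hD
  have h1 : ∑ m ∈ Icc 1 N, tau χ m = ∑ d ∈ Icc 1 N, ((N / d : ℕ) : ℝ) * cv χ d := by
    rw [sum_congr rfl fun m hm => tau_eq_sum χ hm, sum_comm]
    refine sum_congr rfl fun d hd => ?_
    rw [← sum_filter, sum_const, card_mul N d, nsmul_eq_mul]
  have h2 : Icc 1 N = Icc 1 D ∪ Ioc D N := by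
    ext d
    rw [mem_union, mem_Icc, mem_Icc, mem_Ioc]
    omega
  have h3 : Disjoint (Icc 1 D) (Ioc D N) := by
    rw [disjoint_left]
    intro d h4 h5
    rw [mem_Icc] at h4
    rw [mem_Ioc] at h5
    omega
  rw [h1, h2, sum_union h3]
  -- the small divisors
  have h4 : ∑ d ∈ Icc 1 D, ((N / d : ℕ) : ℝ) * cv χ d ≤
      N * (‖χ.LFunction 1‖ + 2 * q / D) + D := by
    have h5 : ∀ d ∈ Icc 1 D, ((N / d : ℕ) : ℝ) * cv χ d ≤ N * (cv χ d / d) + 1 := by
      intro d hd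
      have hd0 : (0 : ℝ) < d := by exact_mod_cast (mem_Icc.1 hd).1
      have h6 : ((N / d : ℕ) : ℝ) ≤ N / d := Nat.cast_div_le
      have h7 : (N : ℝ) / d < ((N / d : ℕ) : ℝ) + 1 := by
        rw [div_lt_iff₀ hd0]
        have := Nat.lt_div_mul_add (a := N) (mem_Icc.1 hd).1
        have h8 : (N : ℝ) < ((N / d : ℕ) : ℝ) * d + d := by exact_mod_cast this
        linarith
      have h8 := abs_le.1 (cv_le hχ d)
      have h9 : (N : ℝ) * (cv χ d / d) = N / d * cv χ d := by ring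
      rw [h9]
      nlinarith [h8.1, h8.2]
    refine (sum_le_sum h5).trans ?_
    rw [sum_add_distrib, ← mul_sum, sum_const, Nat.card_Icc, nsmul_eq_mul, mul_one,
      Nat.add_sub_cancel]
    have h6 := Pool.Agent.E8helper23.SZ.t_LSUM q 1 D χ hq hχ one_pos hD
    have h7 : (Icc 1 D).filter (fun d => Nat.Coprime d 1) = Icc 1 D :=
      filter_true_of_mem fun d _ => Nat.coprime_one_right d
    rw [h7, Nat.cast_one, Real.log_one, add_zero, mul_one, mul_one] at h6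
    have h8 := mul_le_mul_of_nonneg_left h6 (Nat.cast_nonneg (α := ℝ) N)
    linarith
  -- the large divisors
  have h5 : ∑ d ∈ Ioc D N, ((N / d : ℕ) : ℝ) * cv χ d ≤ 2 * q * (N / D) := by
    have h6 : ∀ d ∈ Ioc D N, ((N / d : ℕ) : ℝ) * cv χ d =
        ∑ e ∈ Icc 1 (N / D), if d ≤ N / e then cv χ d else 0 := by
      intro d hd
      rw [mem_Ioc] at hd
      rw [← sum_filter, sum_const, nsmul_eq_mul]
      congr 2
      have h7 : (Icc 1 (N / D)).filter (fun e => d ≤ N / e) = Icc 1 (N / d) := by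
        ext e
        rw [mem_filter, mem_Icc, mem_Icc]
        constructor
        · rintro ⟨⟨h8, _⟩, h9⟩
          refine ⟨h8, ?_⟩
          rw [Nat.le_div_iff_mul_le (by omega)] at h9 ⊢
          rwa [mul_comm]
        · rintro ⟨h8, h9⟩
          refine ⟨⟨h8, h9.trans (Nat.div_le_div_left hd.1.le hD)⟩, ?_⟩
          rw [Nat.le_div_iff_mul_le (by omega)] at h9 ⊢
          rwa [mul_comm]
      rw [h7, Nat.card_Icc, Nat.add_sub_cancel]
    rw [sum_congr rfl h6, sum_comm]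
    have h8 : ∀ e ∈ Icc 1 (N / D), ∑ d ∈ Ioc D N, (if d ≤ N / e then cv χ d else 0) ≤ 2 * q := by
      intro e he
      rw [← sum_filter]
      have h9 : (Ioc D N).filter (fun d => d ≤ N / e) = Ioc D (N / e) := by
        ext d
        rw [mem_filter, mem_Ioc, mem_Ioc]
        have := Nat.div_le_self N e
        constructor
        · rintro ⟨⟨h10, _⟩, h11⟩
          exact ⟨h10, h11⟩
        · rintro ⟨h10, h11⟩
          exact ⟨⟨h10, by omega⟩, h11⟩
      rw [h9]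
      exact interval_le hχ1 D (N / e)
    refine (sum_le_sum h8).trans ?_
    rw [sum_const, Nat.card_Icc, nsmul_eq_mul, Nat.add_sub_cancel]
    have h9 : ((N / D : ℕ) : ℝ) ≤ N / D := Nat.cast_div_le
    have h10 : (0 : ℝ) ≤ 2 * q := by positivity
    calc ((N / D : ℕ) : ℝ) * (2 * q) ≤ N / D * (2 * q) := mul_le_mul_of_nonneg_right h9 h10
      _ = 2 * q * (N / D) := by ring
  linarith

/-- the primes `p ≤ N` with `χ(p) ≠ -1` -/
noncomputable def SP {q : ℕ} (χ : DirichletCharacter ℂ q) (N : ℕ) : Finset ℕ :=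
  open Classical in (Icc 1 N).filter (fun p => p.Prime ∧ cv χ p ≠ -1)

theorem card_SP {q : ℕ} [NeZero q] {χ : DirichletCharacter ℂ q} (hq : 1 < q) (hχ : RealPrim q χ)
    {N D : ℕ} (hD : 0 < D) (hDN : D ≤ N) :
    ((SP χ N).card : ℝ) ≤ N * (‖χ.LFunction 1‖ + 2 * q / D) + D + 2 * q * (N / D) := by
  classical
  refine le_trans ?_ (tau_sum hq hχ hD hDN)
  have hpos := Pool.Agent.E8helper63.SZ.t_POS q χ (by omega) hχ
  have h1 : ((SP χ N).card : ℝ) ≤ ∑ p ∈ SP χ N, tau χ p := by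
    rw [card_eq_sum_ones, Nat.cast_sum]
    refine sum_le_sum fun p hp => ?_
    unfold SP at hp
    rw [mem_filter, mem_Icc] at hp
    rw [Nat.cast_one]
    exact (hpos p hp.1.1).2 hp.2.1 hp.2.2
  refine h1.trans (sum_le_sum_of_subset_of_nonneg ?_ fun m hm _ => ?_)
  · unfold SP
    exact filter_subset _ _
  · exact (hpos m (mem_Icc.1 hm).1).1

end Pool.Agent.E8helper81.GZ
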