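import Pool.Agent.E8helper22.SZ.Stm

/-!
# Project GZ: progressions in which `χ(a) χ(b) = -1` whenever `a + b = n`
-/

set_option autoImplicit false

namespace Pool.Agent.E8helper81.GZ

open Finset Pool.Agent.E8helper22.SZ

/-- a primitive real character is nontrivial on the kernel of the reduction modulo a proper divisor -/
theorem exists_ker {q : ℕ} [NeZero q] {χ : DirichletCharacter ℂ q} (hχ : RealPrim q χ) {r : ℕ}
    (hr : r ∣ q) (hrq : r < q) :
    ∃ y : ℕ, y ≡ 1 [MOD r] ∧ y.Coprime q ∧ χ (y : ZMod q) = -1 := by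
  by_contra hcon
  push Not at hcon
  have h1 : DirichletCharacter.FactorsThrough χ r := by
    rw [DirichletCharacter.factorsThrough_iff_ker_unitsMap hr]
    intro x hx
    rw [MonoidHom.mem_ker] at hx ⊢
    have h2 := congrArg Units.val hx
    rw [ZMod.unitsMap_val, Units.val_one] at h2
    have h3 : ((x : ZMod q).val) ≡ 1 [MOD r] := by
      rw [← ZMod.natCast_eq_natCast_iff, ZMod.natCast_val, h2, Nat.cast_one]
    have h4 := hcon _ h3 (ZMod.val_coe_unit_coprime x)
    rw [ZMod.natCast_zmod_val] at h4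
    apply Units.ext
    rw [MulChar.coe_toUnitHom, Units.val_one]
    rcases hχ.quad (x : ZMod q) with h5 | h5 | h5
    · exfalso
      have h6 : IsUnit (χ (x : ZMod q)) := (Units.isUnit x).map χ
      rw [h5] at h6
      exact not_isUnit_zero h6
    · exact h5
    · exact absurd h5 h4
  have h2 : χ.conductor ≤ r := Nat.sInf_le ((DirichletCharacter.mem_conductorSet_iff χ).2 h1)
  have h3 : χ.conductor = q := (DirichletCharacter.isPrimitive_def χ).1 hχ.prim
  omega

lemma cv_mul_of {q : ℕ} [NeZero q] {χ : DirichletCharacter ℂ q} (hχ : RealPrim q χ) {a b : ℕ}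
    (ha : a.Coprime q) (h : χ (b : ZMod q) = -χ (a : ZMod q)) : cv χ a * cv χ b = -1 := by
  unfold cv
  rw [h]
  rcases hχ.quad (a : ZMod q) with h5 | h5 | h5
  · exfalso
    have h6 : IsUnit (χ (a : ZMod q)) := ((ZMod.isUnit_iff_coprime a q).2 ha).map χ
    rw [h5] at h6
    exact not_isUnit_zero h6
  · rw [h5]; simp
  · rw [h5]; simp

/-- odd characters -/
lemma sign_odd {q : ℕ} [NeZero q] {χ : DirichletCharacter ℂ q} (hχ : RealPrim q χ)
    (h1 : χ (-1) = -1) {a b k : ℕ} (hab : a + b = q * k) (ha : a.Coprime q) :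
    cv χ a * cv χ b = -1 := by
  apply cv_mul_of hχ ha
  have h2 : (b : ZMod q) = -1 * (a : ZMod q) := by
    have h3 : ((a + b : ℕ) : ZMod q) = 0 := by rw [hab]; simp
    push_cast at h3
    linear_combination h3
  rw [h2, map_mul, h1, neg_one_mul]

/-- even characters: with an element `y` of the kernel -/
lemma sign_even {q : ℕ} [NeZero q] {χ : DirichletCharacter ℂ q} (hχ : RealPrim q χ)
    (h1 : χ (-1) = 1) {y : ℕ} (hy : χ (y : ZMod q) = -1) {a b : ℕ} (hab : q ∣ b + y * a)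
    (ha : a.Coprime q) : cv χ a * cv χ b = -1 := by
  apply cv_mul_of hχ ha
  have h2 : (b : ZMod q) = -1 * ((y : ZMod q) * (a : ZMod q)) := by
    have h3 : ((b + y * a : ℕ) : ZMod q) = 0 := (ZMod.natCast_eq_zero_iff _ _).2 hab
    push_cast at h3
    linear_combination h3
  rw [h2, map_mul, map_mul, h1, hy]
  ring

/-- conductor divisible by `4` -/
lemma sign_four {q : ℕ} [NeZero q] {χ : DirichletCharacter ℂ q} (hχ : RealPrim q χ)
    (h1 : χ (-1) = 1) {r : ℕ} (hq : q = 2 * r) (hr : 2 ∣ r) {a b j : ℕ}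
    (hab : a + b = 3 * r * (6 * j + 1)) (ha : a.Coprime q) : cv χ a * cv χ b = -1 := by
  have hq0 : 0 < q := Nat.pos_of_neZero q
  obtain ⟨y, hy1, hy2, hy3⟩ := exists_ker hχ (r := r) ⟨2, by omega⟩ (by omega)
  refine sign_even hχ h1 hy3 ?_ ha
  -- `y = 1 + r k` up to multiples of `q`
  have hy0 : 1 ≤ y := by
    rcases Nat.eq_zero_or_pos y with h2 | h2
    · exfalso
      rw [h2] at hy2
      have := (Nat.coprime_zero_left q).1 hy2
      omega
    · exact h2
  obtain ⟨k, hk⟩ : r ∣ y - 1 := (Nat.modEq_iff_dvd' hy0).1 hy1.symm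
  have hyk : y = 1 + r * k := by omega
  have hk2 : k % 2 = 1 := by
    by_contra hcon
    obtain ⟨k', hk'⟩ : 2 ∣ k := by omega
    have h2 : (y : ZMod q) = 1 := by
      have h3 : y = 1 + q * k' := by rw [hyk, hk', hq]; ring
      rw [h3]
      push_cast
      rw [ZMod.natCast_self, zero_mul, add_zero]
    rw [h2, map_one] at hy3
    norm_num at hy3
  have ha2 : a % 2 = 1 := by
    by_contra hcon
    have h2 : 2 ∣ a := by omega
    have h3 : 2 ∣ q := ⟨r, hq⟩
    have h4 := Nat.dvd_gcd h2 h3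
    rw [ha] at h4
    omega
  have h2 : b + y * a = r * (3 * (6 * j + 1) + k * a) := by
    have h3 : b + y * a = (a + b) + r * k * a := by rw [hyk]; ring
    rw [h3, hab]
    ring
  rw [h2, hq, mul_comm 2 r]
  apply mul_dvd_mul_left
  have h3 : (k * a) % 2 = 1 := by rw [Nat.mul_mod, hk2, ha2]
  omega

/-- conductor divisible by `3` -/
lemma sign_three {q : ℕ} [NeZero q] {χ : DirichletCharacter ℂ q} (hχ : RealPrim q χ)
    (h1 : χ (-1) = 1) {r : ℕ} (hq : q = 3 * r) {a b j : ℕ}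
    (hab : a + b = 4 * r * (6 * j + 1)) (ha : a.Coprime q) (hb : b.Coprime q) :
    cv χ a * cv χ b = -1 := by
  have hq0 : 0 < q := Nat.pos_of_neZero q
  obtain ⟨y, hy1, hy2, hy3⟩ := exists_ker hχ (r := r) ⟨3, by omega⟩ (by omega)
  refine sign_even hχ h1 hy3 ?_ ha
  have h3q : 3 ∣ q := ⟨r, hq⟩
  have hc3 : ∀ x : ℕ, x.Coprime q → x % 3 ≠ 0 := by
    intro x hx h2
    have h4 := Nat.dvd_gcd (Nat.dvd_of_mod_eq_zero h2) h3q
    rw [hx] at h4
    omega
  have hy0 : 1 ≤ y := by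
    have := hc3 y hy2
    omega
  obtain ⟨k, hk⟩ : r ∣ y - 1 := (Nat.modEq_iff_dvd' hy0).1 hy1.symm
  have hyk : y = 1 + r * k := by omega
  have hk3 : k % 3 ≠ 0 := by
    intro hcon
    obtain ⟨k', hk'⟩ : 3 ∣ k := Nat.dvd_of_mod_eq_zero hcon
    have h2 : (y : ZMod q) = 1 := by
      have h3 : y = 1 + q * k' := by rw [hyk, hk', hq]; ring
      rw [h3]
      push_cast
      rw [ZMod.natCast_self, zero_mul, add_zero]
    rw [h2, map_one] at hy3
    norm_num at hy3
  have hr3 : r % 3 ≠ 0 := by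
    intro hcon
    obtain ⟨r', hr'⟩ : 3 ∣ r := Nat.dvd_of_mod_eq_zero hcon
    have h2 : ((y : ZMod q)) ^ 3 = 1 := by
      have h3 : y ^ 3 = 1 + q * (k + r * k ^ 2 + r' * r * k ^ 3) := by
        rw [hyk, hq]
        have : (1 + r * k) ^ 3 = 1 + 3 * r * k + 3 * r * (r * k ^ 2) + r * r * r * k ^ 3 := by ring
        rw [this]
        have h4 : r * r * r * k ^ 3 = 3 * r * (r' * r * k ^ 3) := by
          rw [hr']
          ring
        rw [h4]
        ring
      have h4 : ((y ^ 3 : ℕ) : ZMod q) = 1 := by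
        rw [h3]
        push_cast
        rw [ZMod.natCast_self, zero_mul, add_zero]
      exact_mod_cast h4
    have h3 := congrArg χ h2
    rw [map_pow, hy3, map_one] at h3
    norm_num at h3
  have hya := hc3 a ha
  have hyb := hc3 b hb
  have hyy := hc3 y hy2
  have h2 : b + y * a = r * (4 * (6 * j + 1) + k * a) := by
    have h3 : b + y * a = (a + b) + r * k * a := by rw [hyk]; ring
    rw [h3, hab]
    ring
  rw [h2, hq, mul_comm 3 r]
  apply mul_dvd_mul_left
  -- residues modulo 3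
  have e1 : (a % 3 + b % 3) % 3 = r % 3 := by
    rw [← Nat.add_mod, hab]
    have : 4 * r * (6 * j + 1) = r + 3 * (r * (8 * j + 1)) := by ring
    rw [this, Nat.add_mul_mod_self_left]
  have e2 : y % 3 = (1 + (r % 3) * (k % 3)) % 3 := by
    rw [hyk, Nat.add_mod, Nat.mul_mod]
    simp [Nat.add_mod]
  have e3 : (4 * (6 * j + 1) + k * a) % 3 = (1 + (k % 3) * (a % 3)) % 3 := by
    have : 4 * (6 * j + 1) + k * a = 1 + k * a + 3 * (8 * j + 1) := by ring
    rw [this, Nat.add_mul_mod_self_left, Nat.add_mod, Nat.mul_mod]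
    simp [Nat.add_mod]
  apply Nat.dvd_of_mod_eq_zero
  rw [e3]
  have b1 : a % 3 < 3 := Nat.mod_lt _ (by norm_num)
  have b2 : b % 3 < 3 := Nat.mod_lt _ (by norm_num)
  have b3 : r % 3 < 3 := Nat.mod_lt _ (by norm_num)
  have b4 : k % 3 < 3 := Nat.mod_lt _ (by norm_num)
  rw [e2] at hyy
  generalize a % 3 = a' at *
  generalize b % 3 = b' at *
  generalize r % 3 = r' at *
  generalize k % 3 = k' at *
  interval_cases a' <;> interval_cases b' <;> interval_cases r' <;> interval_cases k' <;>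
    simp_all

/-- **the progression** `t (6 j + 1)` -/
theorem sign_main {q : ℕ} [NeZero q] {χ : DirichletCharacter ℂ q} (hχ : RealPrim q χ)
    (h : χ (-1) = -1 ∨ 3 ∣ q ∨ 4 ∣ q) :
    ∃ t m : ℕ, 6 * t = m * q ∧ 0 < m ∧ m ≤ 3 * Nat.totient m ∧ (4 ∣ t ∨ 6 ∣ t) ∧ q ≤ t ∧
      t ≤ 4 * q ∧ ∀ a b j : ℕ, a + b = t * (6 * j + 1) → a.Coprime q → b.Coprime q →
        cv χ a * cv χ b = -1 := by
  have ho : ∀ h1 : χ (-1) = -1, ∃ t m : ℕ, 6 * t = m * q ∧ 0 < m ∧ m ≤ 3 * Nat.totient m ∧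
      (4 ∣ t ∨ 6 ∣ t) ∧ q ≤ t ∧
      t ≤ 4 * q ∧ ∀ a b j : ℕ, a + b = t * (6 * j + 1) → a.Coprime q → b.Coprime q →
        cv χ a * cv χ b = -1 := by
    intro h1
    refine ⟨4 * q, 24, by ring, by norm_num, by decide, Or.inl ⟨q, rfl⟩, by omega, le_rfl, ?_⟩
    intro a b j hab ha _
    exact sign_odd hχ h1 (k := 4 * (6 * j + 1)) (by rw [hab]; ring) ha
  rcases DirichletCharacter.even_or_odd χ with h1 | h1
  · have h1' : χ (-1) = 1 := h1
    rcases h with h2 | h2 | h2
    · exact ho h2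
    · obtain ⟨r, hr⟩ := h2
      refine ⟨4 * r, 8, by omega, by norm_num, by decide, Or.inl ⟨r, rfl⟩, by omega, by omega, ?_⟩
      intro a b j hab ha hb
      exact sign_three hχ h1' hr hab ha hb
    · obtain ⟨r, hr⟩ := h2
      refine ⟨3 * (2 * r), 9, by omega, by norm_num, by decide, Or.inr ⟨r, by ring⟩, by omega,
        by omega, ?_⟩
      intro a b j hab ha _
      exact sign_four hχ h1' (r := 2 * r) (by omega) ⟨r, rfl⟩ hab ha
  · exact ho h1

end Pool.Agent.E8helper81.GZ
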