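import Pool.Agent.E8helper81.GZ.Tau
import Pool.Agent.E8helper81.GZ.Sign
import Pool.Agent.Helper602.MK.J3

/-!
# Project GZ: the count of the representations in the progression
-/

set_option autoImplicit false

namespace Pool.Agent.E8helper81.GZ

open Finset Pool.Agent.E8helper22.SZ

/-- the number of ordered representations of `n` as a sum of two primes -/
def g (n : ℕ) : ℕ := ((range (n + 1)).filter (fun p => p.Prime ∧ (n - p).Prime)).card

lemma coprime_of_cv {q : ℕ} [NeZero q] {χ : DirichletCharacter ℂ q} {a : ℕ} (h : cv χ a = -1) :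
    a.Coprime q := by
  by_contra hcon
  have h1 : χ (a : ZMod q) = 0 := by
    apply MulChar.map_nonunit
    rwa [ZMod.isUnit_iff_coprime]
  unfold cv at h
  rw [h1] at h
  norm_num at h

lemma g_le {q : ℕ} [NeZero q] {χ : DirichletCharacter ℂ q} {n N : ℕ} (hn : n ≤ N)
    (hs : ∀ a b : ℕ, a + b = n → a.Coprime q → b.Coprime q → cv χ a * cv χ b = -1) :
    g n ≤ 2 * ((SP χ N).filter (fun p => (n - p).Prime)).card := by
  classical
  obtain ⟨F, hF⟩ : ∃ F, F = (range (n + 1)).filter (fun p => p.Prime ∧ (n - p).Prime) := ⟨_, rfl⟩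
  obtain ⟨T, hT⟩ : ∃ T, T = (SP χ N).filter (fun p => (n - p).Prime) := ⟨_, rfl⟩
  unfold g
  rw [← hF, ← hT]
  have h1 : F ⊆ F.filter (fun p => cv χ p ≠ -1) ∪ F.filter (fun p => cv χ (n - p) ≠ -1) := by
    intro p hp
    rw [mem_union, mem_filter, mem_filter]
    by_contra hcon
    push Not at hcon
    have h2 := hcon.1 hp
    have h3 := hcon.2 hp
    have hpn : p ≤ n := by
      rw [hF, mem_filter, mem_range] at hp
      omega
    have h4 := hs p (n - p) (by omega) (coprime_of_cv h2) (coprime_of_cv h3)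
    rw [h2, h3] at h4
    norm_num at h4
  have h2 : (F.filter (fun p => cv χ p ≠ -1)).card ≤ T.card := by
    apply card_le_card
    intro p hp
    rw [mem_filter, hF, mem_filter, mem_range] at hp
    rw [hT, mem_filter]
    unfold SP
    rw [mem_filter, mem_Icc]
    exact ⟨⟨⟨hp.1.2.1.one_lt.le, by omega⟩, hp.1.2.1, hp.2⟩, hp.1.2.2⟩
  have h3 : (F.filter (fun p => cv χ (n - p) ≠ -1)).card ≤ T.card := by
    refine card_le_card_of_injOn (fun p => n - p) ?_ ?_
    · intro p hp
      rw [mem_coe, mem_filter, hF, mem_filter, mem_range] at hp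
      rw [mem_coe, hT, mem_filter]
      unfold SP
      rw [mem_filter, mem_Icc]
      have h4 : n - (n - p) = p := by omega
      have h5 : n - p ≤ N := by omega
      refine ⟨⟨⟨hp.1.2.2.one_lt.le, h5⟩, hp.1.2.2, ?_⟩, ?_⟩
      · exact hp.2
      · rw [h4]
        exact hp.1.2.1
    · intro p hp p' hp' hpp
      rw [mem_coe, mem_filter, hF, mem_filter, mem_range] at hp hp'
      have h4 : n - p = n - p' := hpp
      omega
  have h4 := (card_le_card h1).trans (card_union_le _ _)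
  omega

/-- the Brun-Titchmarsh inequality -/
def BT (C : ℝ) : Prop := ∀ a q N : ℕ, 1 ≤ q → 2 ≤ N →
  (((range N).filter (fun t => (a + t * q).Prime)).card : ℝ) ≤
    C * ((q : ℝ) / (Nat.totient q : ℝ)) * N / Real.log N

lemma exists_BT : ∃ C : ℝ, 1 ≤ C ∧ BT C := Pool.Agent.Helper602.MK.N_J3.J3

lemma cnt_p {C : ℝ} (hC1 : 1 ≤ C) (hC : BT C) {t J p : ℕ} (ht : 0 < t) (hJ : 2 ≤ J) :
    (((Icc 1 J).filter (fun j => (t * (6 * j + 1) - p).Prime)).card : ℝ) ≤
      C * (((6 * t : ℕ) : ℝ) / (Nat.totient (6 * t) : ℝ)) * J / Real.log J := by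
  obtain ⟨A, hA⟩ : ∃ A, A = (Icc 1 J).filter (fun j => (t * (6 * j + 1) - p).Prime) := ⟨_, rfl⟩
  rw [← hA]
  rcases A.eq_empty_or_nonempty with h0 | h0
  · rw [h0, card_empty, Nat.cast_zero]
    have h1 : 0 ≤ Real.log J := Real.log_natCast_nonneg J
    positivity
  · obtain ⟨j₀, hj₀, hmin⟩ := A.exists_min_image id h0
    have h1 := hj₀
    rw [hA, mem_filter, mem_Icc] at h1
    have hp : p ≤ t * (6 * j₀ + 1) := by
      by_contra hcon
      have h2 : t * (6 * j₀ + 1) - p = 0 := by omega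
      rw [h2] at h1
      exact Nat.not_prime_zero h1.2
    refine le_trans ?_ (hC (t * (6 * j₀ + 1) - p) (6 * t) J (by omega) hJ)
    norm_cast
    refine card_le_card_of_injOn (fun j => j - j₀) ?_ ?_
    · intro j hj
      rw [mem_coe] at hj
      have h2 : j₀ ≤ j := hmin j hj
      rw [hA, mem_filter, mem_Icc] at hj
      rw [mem_coe, mem_filter, mem_range]
      have h5 : j - j₀ < J := by omega
      refine ⟨h5, ?_⟩
      have h3 : t * (6 * j₀ + 1) - p + (j - j₀) * (6 * t) = t * (6 * j + 1) - p := by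
        obtain ⟨i, rfl⟩ := Nat.exists_eq_add_of_le h2
        have h4 : t * (6 * (j₀ + i) + 1) = t * (6 * j₀ + 1) + i * (6 * t) := by ring
        rw [h4, Nat.add_sub_cancel_left]
        omega
      rw [h3]
      exact hj.2
    · intro j hj j' hj' hjj
      rw [mem_coe] at hj hj'
      have h2 : j₀ ≤ j := hmin j hj
      have h3 : j₀ ≤ j' := hmin j' hj'
      have h4 : j - j₀ = j' - j₀ := hjj
      omega

theorem sum_g_le {C : ℝ} (hC1 : 1 ≤ C) (hC : BT C) {q : ℕ} [NeZero q]
    {χ : DirichletCharacter ℂ q} {t J N : ℕ} (ht : 0 < t) (hJ : 2 ≤ J) (hN : t * (6 * J + 1) ≤ N)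
    (hs : ∀ a b j : ℕ, a + b = t * (6 * j + 1) → a.Coprime q → b.Coprime q →
      cv χ a * cv χ b = -1) :
    ∑ j ∈ Icc 1 J, (g (t * (6 * j + 1)) : ℝ) ≤ 2 * ((SP χ N).card *
      (C * (((6 * t : ℕ) : ℝ) / (Nat.totient (6 * t) : ℝ)) * J / Real.log J)) := by
  classical
  have h1 : ∀ j ∈ Icc 1 J, (g (t * (6 * j + 1)) : ℝ) ≤
      2 * (((SP χ N).filter (fun p => (t * (6 * j + 1) - p).Prime)).card : ℝ) := by
    intro j hj
    rw [mem_Icc] at hj
    have h2 : t * (6 * j + 1) ≤ N := by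
      refine le_trans ?_ hN
      apply Nat.mul_le_mul_left
      omega
    exact_mod_cast g_le h2 (fun a b hab ha hb => hs a b j hab ha hb)
  refine (sum_le_sum h1).trans ?_
  rw [← mul_sum]
  apply mul_le_mul_of_nonneg_left _ (by norm_num)
  have h2 : ∑ j ∈ Icc 1 J, (((SP χ N).filter (fun p => (t * (6 * j + 1) - p).Prime)).card : ℝ) =
      ∑ p ∈ SP χ N, (((Icc 1 J).filter (fun j => (t * (6 * j + 1) - p).Prime)).card : ℝ) := by
    have h3 : ∀ j ∈ Icc 1 J, (((SP χ N).filter (fun p => (t * (6 * j + 1) - p).Prime)).card : ℝ) =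
        ∑ p ∈ SP χ N, if (t * (6 * j + 1) - p).Prime then (1 : ℝ) else 0 := by
      intro j _
      rw [← sum_filter, sum_const, nsmul_eq_mul, mul_one]
    have h4 : ∀ p ∈ SP χ N, (((Icc 1 J).filter (fun j => (t * (6 * j + 1) - p).Prime)).card : ℝ) =
        ∑ j ∈ Icc 1 J, if (t * (6 * j + 1) - p).Prime then (1 : ℝ) else 0 := by
      intro p _
      rw [← sum_filter, sum_const, nsmul_eq_mul, mul_one]
    rw [sum_congr rfl h3, sum_congr rfl h4, sum_comm]
  rw [h2]
  refine (sum_le_sum fun p _ => cnt_p hC1 hC (p := p) ht hJ).trans ?_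
  rw [sum_const, nsmul_eq_mul]

end Pool.Agent.E8helper81.GZ
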