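import Pool.Agent.E8helper81.GZ.Main

/-!
# Project GZ: the conclusions
-/

set_option autoImplicit false

namespace Pool.Agent.E8helper81.GZ

open Finset Filter Pool.Agent.E8helper22.SZ

/-- some `n` has few representations -/
theorem exists_n : ∃ C : ℝ, 0 < C ∧ ∀ (q : ℕ) [NeZero q] (χ : DirichletCharacter ℂ q), 28 ≤ q →
    RealPrim q χ → (χ (-1) = -1 ∨ 3 ∣ q ∨ 4 ∣ q) →
    ∃ n : ℕ, q ≤ n ∧ n ≤ q ^ 9 ∧ (4 ∣ n ∨ 6 ∣ n) ∧
      (g n : ℝ) ≤ C * (q / Nat.totient q) * Real.log q *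
        (‖χ.LFunction 1‖ + 1 / (q : ℝ) ^ 2) * (n / Real.log n ^ 2) := by
  obtain ⟨C, hC, h⟩ := main_K
  refine ⟨2 * C, by linarith, ?_⟩
  intro q _ χ hq hχ hcond
  by_contra hcon
  push Not at hcon
  have hq0 : (0 : ℝ) < q := by exact_mod_cast (show 0 < q by omega)
  have hq28 : (28 : ℝ) ≤ q := by exact_mod_cast hq
  have hL : 0 < Real.log q := Real.log_pos (by linarith)
  have hφ : (0 : ℝ) < Nat.totient q := by exact_mod_cast Nat.totient_pos.2 (by omega)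
  have hE : 0 < ‖χ.LFunction 1‖ + 1 / (q : ℝ) ^ 2 := by positivity
  have h1 := h q χ hq hχ hcond (2 * C * (q / Nat.totient q) * Real.log q *
        (‖χ.LFunction 1‖ + 1 / (q : ℝ) ^ 2)) (by positivity)
    (fun n hn1 hn2 hn3 => (hcon n hn1 hn2 hn3).le)
  have h2 : 0 < C * (q / Nat.totient q) * Real.log q * (‖χ.LFunction 1‖ + 1 / (q : ℝ) ^ 2) := by
    positivity
  have h3 : 2 * C * (q / Nat.totient q) * Real.log q * (‖χ.LFunction 1‖ + 1 / (q : ℝ) ^ 2) =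
      2 * (C * (q / Nat.totient q) * Real.log q * (‖χ.LFunction 1‖ + 1 / (q : ℝ) ^ 2)) := by ring
  rw [h3] at h1
  linarith

/-- Q1 -/
def Conj : Prop := ∃ c : ℝ, 0 < c ∧ ∃ X₀ : ℝ, ∀ x : ℝ, X₀ ≤ x → ∀ q : ℕ, 0 < q → (q : ℝ) ≤ x / 4 →
  (((Finset.Icc 1 ⌊x⌋₊).filter (fun n : ℕ => x / 2 < (n : ℝ) ∧ Even n ∧ q ∣ n ∧
    (((Finset.range (n + 1)).filter (fun p : ℕ => p.Prime ∧ (n - p).Prime)).card : ℝ)
      < c * (n : ℝ) / (Real.log (n : ℝ)) ^ 2)).card : ℝ) ≤ x / (8 * (q : ℝ))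

/-- Q1 implies the bound for all the large multiples of `4` and `6` -/
theorem all_of_conj (h : Conj) : ∃ c : ℝ, 0 < c ∧ ∃ n₀ : ℕ, ∀ n : ℕ, n₀ ≤ n → (4 ∣ n ∨ 6 ∣ n) →
    c * (n / Real.log n ^ 2) ≤ g n := by
  classical
  obtain ⟨c, hc, X₀, hX⟩ := h
  refine ⟨c, hc, max ⌈X₀⌉₊ 1, ?_⟩
  intro n hn hdiv
  have hn1 : 1 ≤ n := (le_max_right _ _).trans hn
  have hnX : X₀ ≤ n := (Nat.le_ceil _).trans (by exact_mod_cast (le_max_left _ _).trans hn)
  have hn0 : (0 : ℝ) < n := by exact_mod_cast hn1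
  obtain ⟨q, m, hq0, hm4, hm7, hqm⟩ : ∃ q m : ℕ, 0 < q ∧ 4 ≤ m ∧ m ≤ 6 ∧ n = m * q := by
    rcases hdiv with ⟨q, hq⟩ | ⟨q, hq⟩
    · exact ⟨q, 4, by omega, by norm_num, by norm_num, hq⟩
    · exact ⟨q, 6, by omega, by norm_num, by norm_num, hq⟩
  have hev : Even n := by
    rcases hdiv with ⟨k, hk⟩ | ⟨k, hk⟩
    · exact ⟨2 * k, by omega⟩
    · exact ⟨3 * k, by omega⟩
  have hqr : (0 : ℝ) < q := by exact_mod_cast hq0
  have hmr : (4 : ℝ) ≤ m := by exact_mod_cast hm4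
  have hmr6 : (m : ℝ) ≤ 6 := by exact_mod_cast hm7
  have hnr : (n : ℝ) = m * q := by rw [hqm]; push_cast; ring
  have h1 := hX n hnX q hq0 (by rw [hnr]; nlinarith)
  by_contra hcon
  push Not at hcon
  have hmem : n ∈ (Finset.Icc 1 ⌊(n : ℝ)⌋₊).filter (fun n' : ℕ => (n : ℝ) / 2 < (n' : ℝ) ∧ Even n' ∧
      q ∣ n' ∧ (((Finset.range (n' + 1)).filter (fun p : ℕ => p.Prime ∧ (n' - p).Prime)).card : ℝ)
      < c * (n' : ℝ) / (Real.log (n' : ℝ)) ^ 2) := by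
    rw [mem_filter, mem_Icc, Nat.floor_natCast]
    refine ⟨⟨hn1, le_rfl⟩, by linarith, hev, ⟨m, by rw [hqm]; ring⟩, ?_⟩
    rw [mul_div_assoc]
    exact hcon
  have h2 := card_pos.2 ⟨n, hmem⟩
  have h3 : (1 : ℝ) ≤ (n : ℝ) / (8 * q) := le_trans (by exact_mod_cast h2) h1
  rw [le_div_iff₀ (by positivity), hnr] at h3
  nlinarith

/-- Q1 implies a lower bound for `L(1, χ)` -/
theorem L_lower (h : Conj) : ∃ c : ℝ, 0 < c ∧ ∃ q₀ : ℕ, ∀ (q : ℕ) [NeZero q]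
    (χ : DirichletCharacter ℂ q), q₀ ≤ q → RealPrim q χ → (χ (-1) = -1 ∨ 3 ∣ q ∨ 4 ∣ q) →
    c * (Nat.totient q / q) / Real.log q ≤ ‖χ.LFunction 1‖ := by
  obtain ⟨c, hc, n₀, hn₀⟩ := all_of_conj h
  obtain ⟨C, hC, hK⟩ := main_K
  -- `q ≥ 2 C log q / c`
  have hlim : ∀ᶠ q : ℕ in atTop, 2 * C * Real.log q ≤ c * q := by
    have h1 : Tendsto (fun x : ℝ => Real.log x / x) atTop (nhds 0) := by
      have := Real.isLittleO_log_id_atTop.tendsto_div_nhds_zero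
      exact this
    have h2 := h1.comp tendsto_natCast_atTop_atTop
    have h3 : ∀ᶠ q : ℕ in atTop, Real.log q / q < c / (2 * C) :=
      h2.eventually (gt_mem_nhds (by positivity))
    filter_upwards [h3, eventually_ge_atTop 1] with q hq hq1
    have hq0 : (0 : ℝ) < q := by exact_mod_cast hq1
    rw [div_lt_div_iff₀ hq0 (by positivity)] at hq
    linarith
  obtain ⟨q₁, hq₁⟩ := eventually_atTop.1 hlim
  refine ⟨c / (2 * C), by positivity, max (max q₁ n₀) 28, ?_⟩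
  intro q _ χ hq hχ hcond
  have hq28 : 28 ≤ q := (le_max_right _ _).trans hq
  have hqq : q₁ ≤ q := ((le_max_left _ _).trans (le_max_left _ _)).trans hq
  have hqn : n₀ ≤ q := ((le_max_right _ _).trans (le_max_left _ _)).trans hq
  have hq0 : (0 : ℝ) < q := by exact_mod_cast (show 0 < q by omega)
  have hqr : (28 : ℝ) ≤ q := by exact_mod_cast hq28
  have hL : 0 < Real.log q := Real.log_pos (by linarith)
  have hφ : (1 : ℝ) ≤ Nat.totient q := by exact_mod_cast Nat.totient_pos.2 (by omega)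
  have h1 := hK q χ hq28 hχ hcond c hc.le (fun n hn1 _ hn3 => hn₀ n (hqn.trans hn1) hn3)
  have h2 := hq₁ q hqq
  obtain ⟨E, hE⟩ : ∃ E, E = ‖χ.LFunction 1‖ := ⟨_, rfl⟩
  rw [← hE] at h1 ⊢
  -- `c φ / (C q log q) ≤ E + 1 / q²`
  have h3 : c * (Nat.totient q / q) / (C * Real.log q) ≤ E + 1 / (q : ℝ) ^ 2 := by
    rw [div_le_iff₀ (by positivity)]
    have h4 : C * (q / Nat.totient q) * Real.log q * (E + 1 / (q : ℝ) ^ 2) =
        (E + 1 / (q : ℝ) ^ 2) * (C * Real.log q) * (q / Nat.totient q) := by ring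
    rw [h4] at h1
    have h5 : (0 : ℝ) ≤ Nat.totient q / q := by positivity
    calc c * (Nat.totient q / q) ≤
          ((E + 1 / (q : ℝ) ^ 2) * (C * Real.log q) * (q / Nat.totient q)) * (Nat.totient q / q) :=
          mul_le_mul_of_nonneg_right h1 h5
      _ = (E + 1 / (q : ℝ) ^ 2) * (C * Real.log q) := by field_simp
  have h4 : 1 / (q : ℝ) ^ 2 ≤ c / (2 * C) * (Nat.totient q / q) / Real.log q := by
    rw [div_le_div_iff₀ (by positivity) hL, one_mul]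
    have h5 : c / (2 * C) * (Nat.totient q / q) * (q : ℝ) ^ 2 = c * q * Nat.totient q / (2 * C) := by
      field_simp
    rw [h5, le_div_iff₀ (by positivity)]
    nlinarith [mul_pos hc hq0]
  have h5 : c * (Nat.totient q / q) / (C * Real.log q) =
      2 * (c / (2 * C) * (Nat.totient q / q) / Real.log q) := by
    field_simp
  linarith

end Pool.Agent.E8helper81.GZ
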