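import Pool.Agent.E8helper81.GZ.Cnt

/-!
# Project GZ: the main inequality
-/

set_option autoImplicit false

namespace Pool.Agent.E8helper81.GZ

open Finset Pool.Agent.E8helper22.SZ

lemma sum_id (J : ℕ) : (J : ℝ) ^ 2 / 2 ≤ ∑ j ∈ Icc 1 J, (j : ℝ) := by
  induction J with
  | zero => simp
  | succ J ih =>
    rw [sum_Icc_succ_top (by omega)]
    push_cast
    nlinarith

lemma ratio_le {t m q : ℕ} (h : 6 * t = m * q) (hm : 0 < m) (hq : 0 < q)
    (hm3 : m ≤ 3 * Nat.totient m) :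
    ((6 * t : ℕ) : ℝ) / (Nat.totient (6 * t) : ℝ) ≤ 3 * ((q : ℝ) / Nat.totient q) := by
  have hφm : 0 < Nat.totient m := Nat.totient_pos.2 hm
  have hφq : 0 < Nat.totient q := Nat.totient_pos.2 hq
  have h1 : (0 : ℝ) < Nat.totient m := by exact_mod_cast hφm
  have h2 : (0 : ℝ) < Nat.totient q := by exact_mod_cast hφq
  have h3 : ((Nat.totient m * Nat.totient q : ℕ) : ℝ) ≤ (Nat.totient (m * q) : ℝ) := by
    exact_mod_cast Nat.totient_super_multiplicative m q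
  have h4 : (m : ℝ) ≤ 3 * Nat.totient m := by exact_mod_cast hm3
  push_cast at h3
  rw [h]
  push_cast
  have hq0 : (0 : ℝ) ≤ q := Nat.cast_nonneg q
  have h5 : 0 < (Nat.totient m : ℝ) * Nat.totient q := mul_pos h1 h2
  calc (m : ℝ) * q / (Nat.totient (m * q) : ℝ) ≤ (m : ℝ) * q / (Nat.totient m * Nat.totient q) :=
        div_le_div_of_nonneg_left (by positivity) h5 h3
    _ = (m / Nat.totient m) * (q / Nat.totient q) := by field_simp
    _ ≤ 3 * (q / Nat.totient q) := by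
        apply mul_le_mul_of_nonneg_right _ (by positivity)
        rw [div_le_iff₀ h1]
        exact h4

/-- **the main inequality** -/
theorem main_K : ∃ C : ℝ, 0 < C ∧ ∀ (q : ℕ) [NeZero q] (χ : DirichletCharacter ℂ q), 28 ≤ q →
    RealPrim q χ → (χ (-1) = -1 ∨ 3 ∣ q ∨ 4 ∣ q) → ∀ K : ℝ, 0 ≤ K →
    (∀ n : ℕ, q ≤ n → n ≤ q ^ 9 → (4 ∣ n ∨ 6 ∣ n) → K * (n / Real.log n ^ 2) ≤ g n) →
    K ≤ C * (q / Nat.totient q) * Real.log q * (‖χ.LFunction 1‖ + 1 / (q : ℝ) ^ 2) := by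
  obtain ⟨C₀, hC1, hBT⟩ := exists_BT
  refine ⟨648 * C₀, by linarith, ?_⟩
  intro q _ χ hq hχ hcond K hK hg
  obtain ⟨t, m, htm, hm0, hm3, hdiv, hqt, htq, hs⟩ := sign_main hχ hcond
  have hq0 : (0 : ℝ) < q := by exact_mod_cast (show 0 < q by omega)
  have hq28 : (28 : ℝ) ≤ q := by exact_mod_cast hq
  have ht : 0 < t := by omega
  obtain ⟨J, hJ⟩ : ∃ J, J = q ^ 7 := ⟨_, rfl⟩
  have hJ1 : 28 ≤ J := by
    rw [hJ]
    calc 28 ≤ q := hq
      _ = q ^ 1 := (pow_one q).symm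
      _ ≤ q ^ 7 := Nat.pow_le_pow_right (by omega) (by norm_num)
  have hN : t * (6 * J + 1) ≤ 28 * q ^ 8 := by
    calc t * (6 * J + 1) ≤ (4 * q) * (7 * J) := Nat.mul_le_mul htq (by omega)
      _ = 28 * q ^ 8 := by rw [hJ]; ring
  have hN9 : 28 * q ^ 8 ≤ q ^ 9 := by
    calc 28 * q ^ 8 ≤ q * q ^ 8 := Nat.mul_le_mul_right _ hq
      _ = q ^ 9 := by ring
  have hsum := sum_g_le hC1 hBT (χ := χ) (t := t) (J := J) ht (by omega) hN hs
  have hL : 0 < Real.log q := Real.log_pos (by linarith)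
  have hφ : (0 : ℝ) < Nat.totient q := by exact_mod_cast Nat.totient_pos.2 (by omega)
  have hJ0 : (0 : ℝ) < J := by exact_mod_cast (show 0 < J by omega)
  have hJr : (J : ℝ) = (q : ℝ) ^ 7 := by rw [hJ]; push_cast; rfl
  have hlogJ : Real.log J = 7 * Real.log q := by
    rw [hJr, Real.log_pow]
    norm_num
  -- lower bound
  have h1 : ∀ j ∈ Icc 1 J, K * (6 * q * j) / (81 * Real.log q ^ 2) ≤ (g (t * (6 * j + 1)) : ℝ) := by
    intro j hj
    rw [mem_Icc] at hj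
    have hn1 : q ≤ t * (6 * j + 1) := by nlinarith
    have hn2 : t * (6 * j + 1) ≤ q ^ 9 := by
      refine le_trans ?_ (hN.trans hN9)
      apply Nat.mul_le_mul_left
      omega
    have hn3 : 4 ∣ t * (6 * j + 1) ∨ 6 ∣ t * (6 * j + 1) := by
      rcases hdiv with h2 | h2
      · exact Or.inl (h2.mul_right _)
      · exact Or.inr (h2.mul_right _)
    refine le_trans ?_ (hg _ hn1 hn2 hn3)
    obtain ⟨n, hn⟩ : ∃ n, n = t * (6 * j + 1) := ⟨_, rfl⟩
    rw [← hn] at hn1 hn2 ⊢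
    have hn1' : (q : ℝ) ≤ n := by exact_mod_cast hn1
    have hn0 : (0 : ℝ) < n := by linarith
    have hlog0 : 0 < Real.log n := Real.log_pos (by linarith)
    have hlog1 : Real.log n ≤ 9 * Real.log q := by
      have h2 : (n : ℝ) ≤ (q : ℝ) ^ 9 := by exact_mod_cast hn2
      have h3 := Real.log_le_log hn0 h2
      rw [Real.log_pow] at h3
      exact_mod_cast h3
    have h4 : (6 * (q : ℝ) * j) ≤ n := by
      have h5 : 6 * q * j ≤ n := by
        rw [hn]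
        calc 6 * q * j = q * (6 * j) := by ring
          _ ≤ t * (6 * j + 1) := Nat.mul_le_mul hqt (by omega)
      exact_mod_cast h5
    have h5 : Real.log n ^ 2 ≤ 81 * Real.log q ^ 2 := by nlinarith
    rw [mul_div_assoc]
    apply mul_le_mul_of_nonneg_left _ hK
    exact div_le_div₀ hn0.le h4 (by positivity) h5
  have h2 : K * (3 * q * J ^ 2) / (81 * Real.log q ^ 2) ≤
      ∑ j ∈ Icc 1 J, (g (t * (6 * j + 1)) : ℝ) := by
    refine le_trans ?_ (sum_le_sum h1)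
    have h3 : ∑ j ∈ Icc 1 J, K * (6 * q * j) / (81 * Real.log q ^ 2) =
        (K * (6 * q) / (81 * Real.log q ^ 2)) * ∑ j ∈ Icc 1 J, (j : ℝ) := by
      rw [mul_sum]
      refine sum_congr rfl fun j _ => ?_
      ring
    rw [h3]
    have h4 := mul_le_mul_of_nonneg_left (sum_id J)
      (show 0 ≤ K * (6 * q) / (81 * Real.log q ^ 2) by positivity)
    refine le_trans (le_of_eq ?_) h4
    ring
  -- upper bound
  have hS : ((SP χ (28 * q ^ 8)).card : ℝ) ≤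
      28 * (q : ℝ) ^ 8 * (‖χ.LFunction 1‖ + 1 / (q : ℝ) ^ 2) := by
    have h3 := card_SP (χ := χ) (N := 28 * q ^ 8) (D := q ^ 6) (by omega) hχ (by positivity)
      (by
        calc q ^ 6 ≤ q ^ 8 := Nat.pow_le_pow_right (by omega) (by norm_num)
          _ ≤ 28 * q ^ 8 := by omega)
    refine h3.trans ?_
    push_cast
    have h4 : (28 * (q : ℝ) ^ 8) * (‖χ.LFunction 1‖ + 2 * q / (q : ℝ) ^ 6) + (q : ℝ) ^ 6 +
        2 * q * (28 * (q : ℝ) ^ 8 / (q : ℝ) ^ 6) =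
        28 * (q : ℝ) ^ 8 * ‖χ.LFunction 1‖ + (q : ℝ) ^ 6 + 112 * (q : ℝ) ^ 3 := by
      field_simp
      ring
    have h5 : 28 * (q : ℝ) ^ 8 * (‖χ.LFunction 1‖ + 1 / (q : ℝ) ^ 2) =
        28 * (q : ℝ) ^ 8 * ‖χ.LFunction 1‖ + 28 * (q : ℝ) ^ 6 := by
      field_simp
    rw [h4, h5]
    have h6 : (28 : ℝ) ^ 3 ≤ (q : ℝ) ^ 3 := pow_le_pow_left₀ (by norm_num) hq28 3
    have h7 : (q : ℝ) ^ 6 = (q : ℝ) ^ 3 * (q : ℝ) ^ 3 := by ring
    have h8 : (0 : ℝ) < (q : ℝ) ^ 3 := by positivity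
    nlinarith
  have hE : 0 ≤ ‖χ.LFunction 1‖ + 1 / (q : ℝ) ^ 2 := by positivity
  obtain ⟨E, hEE⟩ : ∃ E, E = ‖χ.LFunction 1‖ + 1 / (q : ℝ) ^ 2 := ⟨_, rfl⟩
  rw [← hEE] at hS hE ⊢
  have h3 : K * (3 * q * J ^ 2) / (81 * Real.log q ^ 2) ≤
      2 * ((28 * (q : ℝ) ^ 8 * E) * (C₀ * (3 * ((q : ℝ) / Nat.totient q)) * J / (7 * Real.log q))) := by
    refine (h2.trans hsum).trans ?_
    apply mul_le_mul_of_nonneg_left _ (by norm_num)
    rw [hlogJ]
    apply mul_le_mul hS _ (by positivity) (by positivity)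
    apply div_le_div_of_nonneg_right _ (by positivity)
    apply mul_le_mul_of_nonneg_right _ hJ0.le
    apply mul_le_mul_of_nonneg_left (ratio_le htm hm0 (by omega) hm3) (by linarith)
  have h4 : 0 < 3 * (q : ℝ) * J ^ 2 / (81 * Real.log q ^ 2) := by positivity
  have h5 : K * (3 * (q : ℝ) * J ^ 2 / (81 * Real.log q ^ 2)) ≤
      (648 * C₀ * (q / Nat.totient q) * Real.log q * E) *
        (3 * (q : ℝ) * J ^ 2 / (81 * Real.log q ^ 2)) := by
    refine (le_of_eq ?_).trans (h3.trans (le_of_eq ?_))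
    · ring
    · rw [hJr]
      field_simp
      ring
  exact le_of_mul_le_mul_right h5 h4

end Pool.Agent.E8helper81.GZ
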