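import Pool.Agent.E8helper22.SZ.Stm

/-!
# Project GZ (MP_92f640_nt), second round: real zeros instead of `L(1, χ)`

Statements of the pieces. `cv`, `tau`, `RealPrim` are those of `Pool.Agent.E8helper22.SZ.Stm`.
-/

set_option autoImplicit false

namespace Pool.Agent.E8helper81.GZ

open Finset Pool.Agent.E8helper22.SZ

/-- GZ-A: the sum of `τ_χ`, with error term (two sided form of `tau_sum` in `E8helper81/GZ/Tau.lean`). -/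
def S_A : Prop := ∀ (q : ℕ) [NeZero q] (χ : DirichletCharacter ℂ q), 1 < q → RealPrim q χ →
  ∀ N : ℕ, 1 ≤ N →
    ‖((∑ m ∈ Icc 1 N, tau χ m : ℝ) : ℂ) - N * χ.LFunction 1‖ ≤ 20 * q * √(N : ℝ)

/-- GZ-B: the Dirichlet series of `τ_χ(n) - L(1, χ)` at a real zero of the L-function. -/
def S_B : Prop := ∀ (q : ℕ) [NeZero q] (χ : DirichletCharacter ℂ q), 1 < q → RealPrim q χ →
  ∀ β : ℝ, 7 / 8 ≤ β → β < 1 → χ.LFunction β = 0 → ∀ y : ℕ, 1 ≤ y →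
    ‖∑ n ∈ Icc 1 y, (((tau χ n : ℝ) : ℂ) - χ.LFunction 1) * (((n : ℝ) ^ (-β) : ℝ) : ℂ) +
      χ.LFunction 1 * riemannZeta β‖ ≤ 100 * q * (y : ℝ) ^ (1 / 2 - β)

/-- GZ-Z: `-ζ(β)` is about `1 / (1 - β)` near one. -/
def S_Z : Prop := ∃ δ : ℝ, 0 < δ ∧ δ ≤ 1 / 8 ∧ ∀ β : ℝ, 1 - δ ≤ β → β < 1 →
  1 / (2 * (1 - β)) ≤ -(riemannZeta (β : ℂ)).re

/-- GZ-R: `L(1, χ)` is real and nonnegative. -/
def S_R : Prop := ∀ (q : ℕ) [NeZero q] (χ : DirichletCharacter ℂ q), 1 < q → RealPrim q χ →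
  χ.LFunction 1 = ((‖χ.LFunction 1‖ : ℝ) : ℂ)

/-- GZ-E: partial summation. -/
def S_E : Prop := ∀ (q : ℕ) [NeZero q] (χ : DirichletCharacter ℂ q), 1 < q → RealPrim q χ →
  ∀ y₀ M : ℕ, 1 ≤ y₀ → y₀ ≤ M →
    ∑ m ∈ Ioc y₀ M, tau χ m / m ≤
      (‖χ.LFunction 1‖ + 20 * q / √(y₀ : ℝ)) * (2 + Real.log M)

/-- GZ-M: `τ_χ(p n) ≥ τ_χ(n)` if `χ(p) = 1`. -/
def S_M : Prop := ∀ (q : ℕ) (χ : DirichletCharacter ℂ q), 0 < q → RealPrim q χ →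
  ∀ p n : ℕ, p.Prime → cv χ p = 1 → 0 < n → tau χ n ≤ tau χ (p * n)

/-- GZ-F: products `p n`; each `m ≤ x y` has at most `k` prime factors `p > y₀`. -/
def S_F : Prop := ∀ (q : ℕ) (χ : DirichletCharacter ℂ q), 0 < q → RealPrim q χ →
  ∀ (P : Finset ℕ) (y₀ x y k : ℕ), (∀ p ∈ P, p.Prime ∧ y₀ < p ∧ p ≤ x ∧ cv χ p = 1) → 1 ≤ y₀ →
    x * y < y₀ ^ (k + 1) →
    (∑ p ∈ P, 1 / (p : ℝ)) * ∑ n ∈ Icc 1 y, tau χ n / n ≤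
      k * ∑ m ∈ Ioc y₀ (x * y), tau χ m / m

/-- GZ-H: a lower bound for the sum of the reciprocals. -/
def S_H : Prop := ∀ (S : Finset ℕ) (a : ℝ) (y₀ N₁ N₂ : ℕ), 0 ≤ a → 1 ≤ N₁ → N₁ ≤ N₂ →
  (∀ p ∈ S, 1 ≤ p) → (y₀ : ℝ) ≤ a / 2 * N₁ →
  (∀ N : ℕ, N₁ ≤ N → N ≤ N₂ → a * N ≤ (S.filter (fun p => p ≤ N)).card) →
  a / 2 * Real.log (((N₂ : ℝ) + 2) / (N₁ + 1)) ≤
    ∑ p ∈ S.filter (fun p => y₀ < p ∧ p ≤ N₂), 1 / (p : ℝ)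

end Pool.Agent.E8helper81.GZ
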